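import Mathlib
import Pool.Agent.Hhelper79.CycleLabelBasic
import Pool.Agent.Hhelper71.LD43.Basic

/-!
# Distance labelings of cycles: the number of pairs (label, place)

Let the vertices of `C_i` be numbered by integers, in cyclic order modulo `i` up to an error `E`. Every triple of vertices
whose three arcs are shorter than `i / 2` has a pair for which the difference of the numbers is not (up to `E`) plus or
minus the distance (`bad_many`). For two labels with given numbers such a pair occurs in few cycles, as the length of the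
cycle is a quotient of few integers (`bad_few`). Double counting gives `pairs_lower`.
-/

set_option autoImplicit false

namespace Pool.Agent.Hhelper71.PosP

open Pool.Agent.Hhelper71.LD43

/-- many bad pairs in one cycle: `V` numbers the vertices `0, ..., i - 1` by integers -/
theorem bad_many (i E : ℕ) (hi : 50 * (E + 1) ≤ i) (V : ℕ → ℤ) :
    (i / 12) ^ 2 ≤ 3 * (((Finset.range i) ×ˢ (Finset.range i)).filter
      (fun q => ¬ |(|V q.1 - V q.2|) - (cyc i q.1 q.2 : ℤ)| ≤ E)).card := by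
  classical
  set B := ((Finset.range i) ×ˢ (Finset.range i)).filter
      (fun q => ¬ |(|V q.1 - V q.2|) - (cyc i q.1 q.2 : ℤ)| ≤ E) with hB
  have key : ∀ a : ℕ × ℕ, a ∈ (Finset.range (i / 12)) ×ˢ (Finset.range (i / 12)) →
      (a.1, a.1 + (i / 3 + a.2)) ∈ B ∨ (a.1 + (i / 3 + a.2), a.1 + 2 * (i / 3 + a.2)) ∈ B ∨
        (a.1, a.1 + 2 * (i / 3 + a.2)) ∈ B := by
    rintro ⟨p, s⟩ ha
    rw [Finset.mem_product, Finset.mem_range, Finset.mem_range] at ha
    obtain ⟨hp, hs⟩ := ha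
    simp only at hp hs ⊢
    obtain ⟨g, hg⟩ : ∃ g, g = i / 3 + s := ⟨_, rfl⟩
    rw [← hg]
    by_contra hcon
    push Not at hcon
    obtain ⟨h1, h2, h3⟩ := hcon
    rw [hB, Finset.mem_filter, Finset.mem_product, Finset.mem_range, Finset.mem_range] at h1 h2 h3
    simp only at h1 h2 h3
    have e1 : cyc i p (p + g) = g := by
      unfold cyc
      omega
    have e2 : cyc i (p + g) (p + 2 * g) = g := by
      unfold cyc
      omega
    have e3 : cyc i p (p + 2 * g) = i - 2 * g := by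
      unfold cyc
      omega
    rw [e1] at h1
    rw [e2] at h2
    rw [e3] at h3
    have k1 : |(|V p - V (p + g)|) - (g : ℤ)| ≤ E := by
      by_contra h
      exact h1 ⟨⟨by omega, by omega⟩, h⟩
    have k2 : |(|V (p + g) - V (p + 2 * g)|) - (g : ℤ)| ≤ E := by
      by_contra h
      exact h2 ⟨⟨by omega, by omega⟩, h⟩
    have k3 : |(|V p - V (p + 2 * g)|) - ((i - 2 * g : ℕ) : ℤ)| ≤ E := by
      by_contra h
      exact h3 ⟨⟨by omega, by omega⟩, h⟩
    have k4 : ((i - 2 * g : ℕ) : ℤ) = (i : ℤ) - 2 * g := by omega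
    rw [k4] at k3
    rw [abs_le] at k1 k2 k3
    rcases abs_cases (V p - V (p + g)) with ⟨c1, _⟩ | ⟨c1, _⟩ <;>
    rcases abs_cases (V (p + g) - V (p + 2 * g)) with ⟨c2, _⟩ | ⟨c2, _⟩ <;>
    rcases abs_cases (V p - V (p + 2 * g)) with ⟨c3, _⟩ | ⟨c3, _⟩ <;>
    omega
  let F : ℕ × ℕ → ℕ × (ℕ × ℕ) := fun a =>
    if (a.1, a.1 + (i / 3 + a.2)) ∈ B then (0, (a.1, a.1 + (i / 3 + a.2)))
    else if (a.1 + (i / 3 + a.2), a.1 + 2 * (i / 3 + a.2)) ∈ B then
      (1, (a.1 + (i / 3 + a.2), a.1 + 2 * (i / 3 + a.2)))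
    else (2, (a.1, a.1 + 2 * (i / 3 + a.2)))
  have hF : ∀ a ∈ (Finset.range (i / 12)) ×ˢ (Finset.range (i / 12)), F a ∈ (Finset.range 3) ×ˢ B := by
    intro a ha
    rw [Finset.mem_product, Finset.mem_range]
    simp only [F]
    split_ifs with h1 h2
    · exact ⟨by norm_num, h1⟩
    · exact ⟨by norm_num, h2⟩
    · rcases key a ha with h | h | h
      · exact absurd h h1
      · exact absurd h h2
      · exact ⟨by norm_num, h⟩
  have hinj : Set.InjOn F ((Finset.range (i / 12)) ×ˢ (Finset.range (i / 12)) : Finset (ℕ × ℕ)) := by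
    rintro ⟨p, s⟩ _ ⟨p', s'⟩ _ h
    simp only [F] at h
    split_ifs at h with h1 h2 h3 h4 h5 h6 h7 <;>
    simp only [Prod.mk.injEq] at h ⊢ <;>
    omega
  have hc := Finset.card_le_card_of_injOn F hF hinj
  rw [Finset.card_product, Finset.card_product, Finset.card_range, Finset.card_range] at hc
  calc (i / 12) ^ 2 = i / 12 * (i / 12) := sq _
    _ ≤ 3 * B.card := hc

/-- a pair of (label, place) pairs is bad in few cycles -/
theorem bad_few (n T E : ℕ) (hT : 1 ≤ T) (hE : 100 * (E + 1) ≤ n) (D : ℤ) (hD : |D| ≤ 2 * (T * n : ℕ)) (d : ℤ)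
    (I : Finset ℕ)
    (hI : ∀ i ∈ I, n ≤ 2 * i ∧ 1 ≤ i ∧ 0 ≤ d ∧ 2 * d ≤ i ∧ ¬ |(|D|) - d| ≤ E ∧
      ∃ m : ℤ, |(|D - m * i|) - d| ≤ E) :
    I.card ≤ 36 * T * (E + 1) := by
  classical
  choose! m hm using fun i (hi : i ∈ I) => (hI i hi).2.2.2.2.2
  let F : ℕ → (ℤ × Bool) × ℤ := fun i => ((m i, decide (0 ≤ D - m i * i)), |D - m i * i| - d)
  have hm0 : ∀ i ∈ I, m i ≠ 0 := by
    intro i hi h0
    have h1 := hm i hi
    rw [h0, zero_mul, sub_zero] at h1
    exact (hI i hi).2.2.2.2.1 h1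
  have hmb : ∀ i ∈ I, |m i| ≤ 4 * T := by
    intro i hi
    obtain ⟨h1, h2, h3, h4, -, -⟩ := hI i hi
    have h5 := (abs_le.1 (hm i hi)).2
    have h6 : |m i * (i : ℤ)| ≤ |D| + (d + E) := by
      have h7 : m i * (i : ℤ) = D - (D - m i * i) := by ring
      rw [h7]
      calc |D - (D - m i * i)| ≤ |D| + |D - m i * i| := abs_sub _ _
        _ ≤ |D| + (d + E) := by linarith
    rw [abs_mul, Nat.abs_cast] at h6
    by_contra hcon
    push Not at hcon
    have h8 : 4 * (T : ℤ) + 1 ≤ |m i| := hcon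
    have hi0 : (1 : ℤ) ≤ i := by exact_mod_cast h2
    have h9 : (4 * (T : ℤ) + 1) * i ≤ |m i| * i := mul_le_mul_of_nonneg_right h8 (by omega)
    have h10 : (n : ℤ) ≤ 2 * i := by exact_mod_cast h1
    have h11 : |D| ≤ 2 * (T * n) := by exact_mod_cast hD
    have h12 : (T : ℤ) * n ≤ T * (2 * i) := mul_le_mul_of_nonneg_left h10 (by positivity)
    have h13 : 100 * ((E : ℤ) + 1) ≤ n := by exact_mod_cast hE
    nlinarith
  have hmaps : ∀ i ∈ I, F i ∈ ((Finset.Icc (-(4 * (T : ℤ))) (4 * T)) ×ˢ (Finset.univ : Finset Bool)) ×ˢ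
      (Finset.Icc (-(E : ℤ)) E) := by
    intro i hi
    rw [Finset.mem_product, Finset.mem_product, Finset.mem_Icc, Finset.mem_Icc]
    have h1 := abs_le.1 (hmb i hi)
    have h2 := abs_le.1 (hm i hi)
    exact ⟨⟨⟨h1.1, h1.2⟩, Finset.mem_univ _⟩, ⟨h2.1, h2.2⟩⟩
  have hinj : Set.InjOn F I := by
    intro i hi j hj hij
    have e1 : m i = m j := congrArg (fun x => x.1.1) hij
    have e2 : decide (0 ≤ D - m i * i) = decide (0 ≤ D - m j * j) := congrArg (fun x => x.1.2) hij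
    have e4 : |D - m i * i| - d = |D - m j * j| - d := congrArg Prod.snd hij
    have e3 : (0 ≤ D - m i * i) ↔ (0 ≤ D - m j * j) := by
      rwa [decide_eq_decide] at e2
    have h3 : D - m i * i = D - m j * j := by
      by_cases h : 0 ≤ D - m i * i
      · rw [abs_of_nonneg h, abs_of_nonneg (e3.1 h)] at e4
        linarith
      · have h' : ¬ 0 ≤ D - m j * j := fun hh => h (e3.2 hh)
        push Not at h h'
        rw [abs_of_neg h, abs_of_neg h'] at e4
        linarith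
    have h4 : m i * (i : ℤ) = m i * (j : ℤ) := by
      rw [← e1] at h3
      linarith
    have h5 := mul_left_cancel₀ (hm0 i hi) h4
    exact_mod_cast h5
  have hc := Finset.card_le_card_of_injOn F hmaps hinj
  rw [Finset.card_product, Finset.card_product, Int.card_Icc, Int.card_Icc, Finset.card_univ, Fintype.card_bool] at hc
  have h1 : (4 * (T : ℤ) + 1 - -(4 * (T : ℤ))).toNat = 8 * T + 1 := by omega
  have h2 : ((E : ℤ) + 1 - -(E : ℤ)).toNat = 2 * E + 1 := by omega
  rw [h1, h2] at hc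
  have h3 : (8 * T + 1) * 2 * (2 * E + 1) ≤ (18 * T) * (2 * (E + 1)) :=
    Nat.mul_le_mul (by omega) (by omega)
  calc I.card ≤ _ := hc
    _ ≤ _ := h3
    _ = 36 * T * (E + 1) := by ring

/-- the pairs (label, place) -/
def PP (n : ℕ) {L : Type} (φ : (i : ℕ) → Fin i → L) (v : (i : ℕ) → Fin i → ℤ) : Set (L × ℤ) :=
  {x | ∃ i : ℕ, 3 ≤ i ∧ i ≤ n ∧ ∃ u : Fin i, (φ i u, v i u) = x}

theorem PP_finite (n : ℕ) {L : Type} (φ : (i : ℕ) → Fin i → L) (v : (i : ℕ) → Fin i → ℤ) :
    (PP n φ v).Finite := by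
  apply Set.Finite.subset (s := ⋃ i ∈ Set.Iic n, Set.range (fun u : Fin i => (φ i u, v i u)))
  · exact Set.Finite.biUnion (Set.finite_Iic n) (fun i _ => Set.finite_range _)
  · rintro x ⟨i, _, hi, u, rfl⟩
    simp only [Set.mem_iUnion]
    exact ⟨i, hi, u, rfl⟩

theorem dist_cyc {i : ℕ} (h3 : 3 ≤ i) (u v : Fin i) :
    ((SimpleGraph.cycleGraph i).dist u v : ℤ) = cyc i u.val v.val := by
  rw [Pool.Agent.Hhelper79.CycleLabel.cycle_dist i (by omega) u v]
  rfl

theorem lab_inj {n : ℕ} {L : Type} {φ : (i : ℕ) → Fin i → L} {d' : L → L → ℤ}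
    (hd' : ∀ i : ℕ, 3 ≤ i → i ≤ n → ∀ u v : Fin i,
      d' (φ i u) (φ i v) = ((SimpleGraph.cycleGraph i).dist u v : ℤ)) :
    ∀ i, 3 ≤ i → i ≤ n → ∀ u v : Fin i, φ i u = φ i v → u = v := by
  intro i h3 hi u v huv
  have h1 := hd' i h3 hi u v
  have h2 := hd' i h3 hi u u
  rw [dist_cyc h3] at h1 h2
  rw [← huv, h2, cyc_self] at h1
  have h4 : cyc i u.val v.val = 0 := by exact_mod_cast h1.symm
  exact Fin.ext (cyc_eq_zero u.isLt v.isLt h4)

theorem pairs_lower {n T E : ℕ} (hn : 3 ≤ n) (hT : 1 ≤ T) {L : Type} (φ : (i : ℕ) → Fin i → L)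
    (v : (i : ℕ) → Fin i → ℤ)
    (h : ∃ d' : L → L → ℤ, ∀ i : ℕ, 3 ≤ i → i ≤ n → ∀ u v : Fin i,
      d' (φ i u) (φ i v) = ((SimpleGraph.cycleGraph i).dist u v : ℤ))
    (hv : ∀ i : ℕ, 3 ≤ i → i ≤ n → ∀ u w : Fin i, ∃ m : ℤ,
      |(|v i u - v i w - m * i|) - ((SimpleGraph.cycleGraph i).dist u w : ℤ)| ≤ E)
    (hb : ∀ i : ℕ, 3 ≤ i → i ≤ n → ∀ u : Fin i, |v i u| ≤ ((T * n : ℕ) : ℤ)) :
    n ^ 3 ≤ 500000 * T * (E + 1) * (PP n φ v).ncard ^ 2 := by
  classical
  obtain ⟨d', hd'⟩ := h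
  have hinj := lab_inj hd'
  have hfin := PP_finite n φ v
  set Pf : Finset (L × ℤ) := hfin.toFinset with hPf
  have hcard : (PP n φ v).ncard = Pf.card := Set.ncard_eq_toFinset_card _ hfin
  rw [hcard]
  have hmem : ∀ i, 3 ≤ i → i ≤ n → ∀ u : Fin i, (φ i u, v i u) ∈ Pf := by
    intro i h3 hi u
    rw [hPf, Set.Finite.mem_toFinset]
    exact ⟨i, h3, hi, u, rfl⟩
  rcases Nat.lt_or_ge n (100 * (E + 1)) with hn48 | hn48
  · have h1 : n ≤ Pf.card := by
      have h2 := Finset.card_le_card_of_injOn (s := (Finset.univ : Finset (Fin n))) (t := Pf)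
        (fun u => (φ n u, v n u)) (fun u _ => hmem n hn le_rfl u)
        (fun u _ w _ huw => hinj n hn le_rfl u w (congrArg Prod.fst huw))
      rwa [Finset.card_univ, Fintype.card_fin] at h2
    have h2 : n ^ 2 ≤ Pf.card ^ 2 := Nat.pow_le_pow_left h1 2
    calc n ^ 3 = n * n ^ 2 := by ring
      _ ≤ (100 * (E + 1)) * n ^ 2 := Nat.mul_le_mul_right _ hn48.le
      _ ≤ (100 * (E + 1)) * Pf.card ^ 2 := Nat.mul_le_mul_left _ h2
      _ ≤ 500000 * T * (E + 1) * Pf.card ^ 2 := by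
        refine Nat.mul_le_mul_right _ (Nat.mul_le_mul_right _ ?_)
        omega
  · let r : ℕ → (L × ℤ) × (L × ℤ) → Prop := fun i q => ∃ u w : Fin i, (φ i u, v i u) = q.1 ∧
      (φ i w, v i w) = q.2 ∧ ¬ |(|v i u - v i w|) - ((SimpleGraph.cycleGraph i).dist u w : ℤ)| ≤ E
    have hI : ∀ i ∈ Iset n, n ≤ 2 * i ∧ i ≤ n ∧ 50 * (E + 1) ≤ i ∧ 3 ≤ i := by
      intro i hi
      rw [mem_Iset] at hi
      omega
    have hlow : ∀ i ∈ Iset n, (n / 24) ^ 2 ≤ 3 * ((Pf ×ˢ Pf).filter fun q => r i q).card := by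
      intro i hi
      obtain ⟨hi1, hi2, hi3, hi4⟩ := hI i hi
      let V : ℕ → ℤ := fun p => if hp : p < i then v i ⟨p, hp⟩ else 0
      have h1 := bad_many i E hi3 V
      have h2 : (((Finset.range i) ×ˢ (Finset.range i)).filter
          (fun q => ¬ |(|V q.1 - V q.2|) - (cyc i q.1 q.2 : ℤ)| ≤ E)).card ≤
          ((Pf ×ˢ Pf).filter fun q => r i q).card := by
        let G : ℕ → L × ℤ := fun p => if hp : p < i then (φ i ⟨p, hp⟩, v i ⟨p, hp⟩) else (φ i ⟨0, by omega⟩, 0)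
        have hG : ∀ p (hp : p < i), G p = (φ i ⟨p, hp⟩, v i ⟨p, hp⟩) := by
          intro p hp
          simp only [G]
          rw [dif_pos hp]
        have hV : ∀ p (hp : p < i), V p = v i ⟨p, hp⟩ := by
          intro p hp
          simp only [V]
          rw [dif_pos hp]
        refine Finset.card_le_card_of_injOn (fun q => (G q.1, G q.2)) ?_ ?_
        · rintro ⟨p, q⟩ hq
          rw [Finset.mem_coe, Finset.mem_filter, Finset.mem_product, Finset.mem_range,
            Finset.mem_range] at hq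
          obtain ⟨⟨hp, hq'⟩, hne⟩ := hq
          simp only at hp hq' hne ⊢
          rw [Finset.mem_coe, Finset.mem_filter, Finset.mem_product, hG p hp, hG q hq']
          refine ⟨⟨hmem i hi4 hi2 _, hmem i hi4 hi2 _⟩, ⟨p, hp⟩, ⟨q, hq'⟩, rfl, rfl, ?_⟩
          rw [dist_cyc hi4, ← hV p hp, ← hV q hq']
          exact hne
        · rintro ⟨p, q⟩ hq ⟨p', q'⟩ hq' he
          rw [Finset.mem_coe, Finset.mem_filter, Finset.mem_product, Finset.mem_range,
            Finset.mem_range] at hq hq'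
          simp only at hq hq' he
          have e1 := congrArg Prod.fst he
          have e2 := congrArg Prod.snd he
          simp only at e1 e2
          rw [hG p hq.1.1, hG p' hq'.1.1] at e1
          rw [hG q hq.1.2, hG q' hq'.1.2] at e2
          have f1 := hinj i hi4 hi2 _ _ (congrArg Prod.fst e1)
          have f2 := hinj i hi4 hi2 _ _ (congrArg Prod.fst e2)
          rw [Fin.mk.injEq] at f1 f2
          rw [f1, f2]
      have h3 : n / 24 ≤ i / 12 := by omega
      calc (n / 24) ^ 2 ≤ (i / 12) ^ 2 := Nat.pow_le_pow_left h3 2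
        _ ≤ _ := h1
        _ ≤ _ := Nat.mul_le_mul_left _ h2
    have hup : ∀ q ∈ Pf ×ˢ Pf, ((Iset n).filter fun i => r i q).card ≤ 36 * T * (E + 1) := by
      rintro ⟨⟨x, p⟩, ⟨y, s⟩⟩ _
      rcases Finset.eq_empty_or_nonempty ((Iset n).filter fun i => r i ((x, p), (y, s))) with h0 | ⟨j, hj⟩
      · rw [h0, Finset.card_empty]
        exact Nat.zero_le _
      · rw [Finset.mem_filter] at hj
        obtain ⟨hj1, u, w, e1, e2, -⟩ := hj
        obtain ⟨j1, j2, j3, j4⟩ := hI j hj1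
        have b1 := hb j j4 j2 u
        have b2 := hb j j4 j2 w
        have e3 : v j u = p := congrArg Prod.snd e1
        have e4 : v j w = s := congrArg Prod.snd e2
        rw [e3] at b1
        rw [e4] at b2
        have hD : |p - s| ≤ 2 * ((T * n : ℕ) : ℤ) := by
          calc |p - s| ≤ |p| + |s| := abs_sub _ _
            _ ≤ 2 * ((T * n : ℕ) : ℤ) := by linarith
        refine bad_few n T E hT hn48 (p - s) hD (d' x y) _ ?_
        intro i hi
        rw [Finset.mem_filter] at hi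
        obtain ⟨hi1, u, w, e1, e2, e5⟩ := hi
        obtain ⟨i1, i2, i3, i4⟩ := hI i hi1
        have f1 : φ i u = x := congrArg Prod.fst e1
        have f2 : v i u = p := congrArg Prod.snd e1
        have f3 : φ i w = y := congrArg Prod.fst e2
        have f4 : v i w = s := congrArg Prod.snd e2
        have f5 := hd' i i4 i2 u w
        rw [f1, f3] at f5
        have f6 := hv i i4 i2 u w
        rw [f2, f4] at f6 e5
        rw [f5]
        refine ⟨i1, by omega, by positivity, ?_, e5, f6⟩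
        rw [dist_cyc i4]
        have := two_cyc_le u.isLt w.isLt
        exact_mod_cast this
    have hsum := sum_card_filter_comm (Iset n) (Pf ×ˢ Pf) r
    have h1 : ∑ q ∈ Pf ×ˢ Pf, ((Iset n).filter fun i => r i q).card ≤ Pf.card ^ 2 * (36 * T * (E + 1)) := by
      calc _ ≤ ∑ _q ∈ Pf ×ˢ Pf, 36 * T * (E + 1) := Finset.sum_le_sum hup
        _ = Pf.card ^ 2 * (36 * T * (E + 1)) := by
          rw [Finset.sum_const, Finset.card_product, smul_eq_mul, sq]
    have h2 : (Iset n).card * (n / 24) ^ 2 ≤ 3 * ∑ i ∈ Iset n, ((Pf ×ˢ Pf).filter fun q => r i q).card := by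
      rw [Finset.mul_sum, ← smul_eq_mul, ← Finset.sum_const]
      exact Finset.sum_le_sum hlow
    have h3 := card_Iset_ge (n := n)
    rw [hsum] at h2
    have h4 : n ≤ 48 * (n / 24) := by omega
    have h5 : n ^ 2 ≤ 2304 * (n / 24) ^ 2 := by
      calc n ^ 2 ≤ (48 * (n / 24)) ^ 2 := Nat.pow_le_pow_left h4 2
        _ = 2304 * (n / 24) ^ 2 := by ring
    calc n ^ 3 = n * n ^ 2 := by ring
      _ ≤ (2 * (Iset n).card) * (2304 * (n / 24) ^ 2) := Nat.mul_le_mul h3 h5
      _ = 4608 * ((Iset n).card * (n / 24) ^ 2) := by ring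
      _ ≤ 4608 * (3 * (Pf.card ^ 2 * (36 * T * (E + 1)))) := by
        refine Nat.mul_le_mul_left _ (h2.trans ?_)
        exact Nat.mul_le_mul_left _ h1
      _ = 497664 * (T * (E + 1) * Pf.card ^ 2) := by ring
      _ ≤ 500000 * (T * (E + 1) * Pf.card ^ 2) := Nat.mul_le_mul_right _ (by norm_num)
      _ = 500000 * T * (E + 1) * Pf.card ^ 2 := by ring

end Pool.Agent.Hhelper71.PosP
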