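import Mathlib
import Pool.Agent.Hhelper71.PosP.Low

/-!
# Distance labelings of cycles whose labels occur near few places

`places`: lower bound `n ^ 3 ≤ 2000000 * T * (E + 1) * S ^ 2` if every label `x` occurs only within `E` of a finite set
`A x` of places and `S` is the sum of the numbers of places. `chain_labeling`: the classical labeling by two chains.
-/

set_option autoImplicit false

namespace Pool.Agent.Hhelper71.PosP

open Pool.Agent.Hhelper71.LD43

/-- the labels -/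
def LU (n : ℕ) {L : Type} (φ : (i : ℕ) → Fin i → L) : Set L :=
  {x | ∃ i : ℕ, 3 ≤ i ∧ i ≤ n ∧ ∃ u : Fin i, φ i u = x}

theorem LU_finite (n : ℕ) {L : Type} (φ : (i : ℕ) → Fin i → L) : (LU n φ).Finite := by
  apply Set.Finite.subset (s := ⋃ i ∈ Set.Iic n, Set.range (fun u : Fin i => φ i u))
  · exact Set.Finite.biUnion (Set.finite_Iic n) (fun i _ => Set.finite_range _)
  · rintro x ⟨i, _, hi, u, rfl⟩
    simp only [Set.mem_iUnion]
    exact ⟨i, hi, u, rfl⟩

theorem places {n T E : ℕ} (hn : 3 ≤ n) (hT : 1 ≤ T) {L : Type} (φ : (i : ℕ) → Fin i → L)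
    (v : (i : ℕ) → Fin i → ℤ)
    (h : ∃ d' : L → L → ℤ, ∀ i : ℕ, 3 ≤ i → i ≤ n → ∀ u v : Fin i,
      d' (φ i u) (φ i v) = ((SimpleGraph.cycleGraph i).dist u v : ℤ))
    (hv : ∀ i : ℕ, 3 ≤ i → i ≤ n → ∀ u w : Fin i, ∃ m : ℤ,
      |v i u - v i w - m * i| = ((SimpleGraph.cycleGraph i).dist u w : ℤ))
    (hb : ∀ i : ℕ, 3 ≤ i → i ≤ n → ∀ u : Fin i, |v i u| ≤ (T : ℤ) * n)
    (A : L → Finset ℤ)
    (hp : ∀ i : ℕ, 3 ≤ i → i ≤ n → ∀ u : Fin i, ∃ a ∈ A (φ i u), |v i u - a| ≤ E) :
    n ^ 3 ≤ 2000000 * T * (E + 1) * (∑ x ∈ (LU_finite n φ).toFinset, (A x).card) ^ 2 := by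
  classical
  have hfin := LU_finite n φ
  set Pf : Finset L := hfin.toFinset with hPf
  have hmem : ∀ i, 3 ≤ i → i ≤ n → ∀ u : Fin i, φ i u ∈ Pf := by
    intro i h3 hi u
    rw [hPf, Set.Finite.mem_toFinset]
    exact ⟨i, h3, hi, u, rfl⟩
  set S : ℕ := ∑ x ∈ Pf, (A x).card with hS
  obtain ⟨d', hd'⟩ := h
  have hinj := lab_inj hd'
  have hPS : Pf.card ≤ S := by
    rw [hS, Finset.card_eq_sum_ones]
    refine Finset.sum_le_sum fun x hx => ?_
    rw [hPf, Set.Finite.mem_toFinset] at hx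
    obtain ⟨i, h3, hi, u, rfl⟩ := hx
    obtain ⟨a, ha, -⟩ := hp i h3 hi u
    exact Finset.card_pos.2 ⟨a, ha⟩
  rcases Nat.lt_or_ge n E with hnE | hnE
  · have h1 : n ≤ Pf.card := by
      have h2 := Finset.card_le_card_of_injOn (s := (Finset.univ : Finset (Fin n))) (t := Pf)
        (fun u => φ n u) (fun u _ => hmem n hn le_rfl u)
        (fun u _ w _ huw => hinj n hn le_rfl u w huw)
      rwa [Finset.card_univ, Fintype.card_fin] at h2
    have h2 : n ^ 2 ≤ S ^ 2 := Nat.pow_le_pow_left (h1.trans hPS) 2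
    calc n ^ 3 = n * n ^ 2 := by ring
      _ ≤ (E + 1) * n ^ 2 := Nat.mul_le_mul_right _ (by omega)
      _ ≤ (E + 1) * S ^ 2 := Nat.mul_le_mul_left _ h2
      _ ≤ (2000000 * T) * ((E + 1) * S ^ 2) := Nat.le_mul_of_pos_left _ (by omega)
      _ = 2000000 * T * (E + 1) * S ^ 2 := by ring
  · let a : (i : ℕ) → Fin i → ℤ := fun i u =>
      if hi : 3 ≤ i ∧ i ≤ n then (hp i hi.1 hi.2 u).choose else 0
    have ha : ∀ i, 3 ≤ i → i ≤ n → ∀ u : Fin i, a i u ∈ A (φ i u) ∧ |v i u - a i u| ≤ E := by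
      intro i h3 hi u
      have h1 : a i u = (hp i h3 hi u).choose := by
        simp only [a]
        rw [dif_pos ⟨h3, hi⟩]
      rw [h1]
      exact (hp i h3 hi u).choose_spec
    have h1 := pairs_lower (T := 2 * T) (E := 2 * E) hn (by omega) φ a ⟨d', hd'⟩ (by
      intro i h3 hi u w
      obtain ⟨m, hm⟩ := hv i h3 hi u w
      refine ⟨m, ?_⟩
      have e1 := abs_le.1 (ha i h3 hi u).2
      have e2 := abs_le.1 (ha i h3 hi w).2
      rw [← hm]
      calc |(|a i u - a i w - m * i|) - (|v i u - v i w - m * i|)|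
          ≤ |(a i u - a i w - m * i) - (v i u - v i w - m * i)| := abs_abs_sub_abs_le_abs_sub _ _
        _ ≤ ((2 * E : ℕ) : ℤ) := by
          rw [abs_le]
          push_cast
          constructor <;> linarith) (by
      intro i h3 hi u
      have e1 := abs_le.1 (ha i h3 hi u).2
      have e2 := abs_le.1 (hb i h3 hi u)
      have e3 : (E : ℤ) ≤ n := by exact_mod_cast hnE
      have e4 : (n : ℤ) ≤ T * n := by
        have : n ≤ T * n := Nat.le_mul_of_pos_left _ hT
        exact_mod_cast this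
      rw [abs_le]
      push_cast
      constructor <;> linarith)
    have h2 : (PP n φ a).ncard ≤ S := by
      have hsub : PP n φ a ⊆ ((Pf.biUnion fun x => (A x).image fun z => (x, z) : Finset (L × ℤ)) : Set (L × ℤ)) := by
        rintro _ ⟨i, h3, hi, u, rfl⟩
        rw [Finset.mem_coe, Finset.mem_biUnion]
        exact ⟨φ i u, hmem i h3 hi u, Finset.mem_image.2 ⟨a i u, (ha i h3 hi u).1, rfl⟩⟩
      calc (PP n φ a).ncard ≤ _ := Set.ncard_le_ncard hsub (Finset.finite_toSet _)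
        _ = (Pf.biUnion fun x => (A x).image fun z => (x, z)).card := Set.ncard_coe_finset _
        _ ≤ ∑ x ∈ Pf, ((A x).image fun z => (x, z)).card := Finset.card_biUnion_le
        _ ≤ ∑ x ∈ Pf, (A x).card := Finset.sum_le_sum fun x _ => Finset.card_image_le
    calc n ^ 3 ≤ 500000 * (2 * T) * (2 * E + 1) * (PP n φ a).ncard ^ 2 := h1
      _ ≤ 500000 * (2 * T) * (2 * (E + 1)) * S ^ 2 :=
        Nat.mul_le_mul (Nat.mul_le_mul_left _ (by omega)) (Nat.pow_le_pow_left h2 2)
      _ = 2000000 * T * (E + 1) * S ^ 2 := by ring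

/-! ### The classical labeling by two chains -/

/-- labels -/
def cphi (s : ℕ) (i : ℕ) (u : Fin i) : Bool × ℕ × ℕ :=
  if 2 * u.val ≤ i then (true, u.val, i % s) else (false, i - u.val, i / s)

/-- numbers -/
def cnum (i : ℕ) (u : Fin i) : ℤ :=
  if 2 * u.val ≤ i then (u.val : ℤ) else (u.val : ℤ) - i

/-- places -/
def cpl (x : Bool × ℕ × ℕ) : Finset ℤ :=
  {if x.1 then (x.2.1 : ℤ) else -(x.2.1 : ℤ)}

/-- distances -/
def cdd (s : ℕ) (x y : Bool × ℕ × ℕ) : ℤ :=
  if x.1 = y.1 then |(x.2.1 : ℤ) - y.2.1|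
  else if x.1 then cyc (y.2.2 * s + x.2.2) x.2.1 (y.2.2 * s + x.2.2 - y.2.1)
  else cyc (x.2.2 * s + y.2.2) (x.2.2 * s + y.2.2 - x.2.1) y.2.1

theorem chain_dist (s i : ℕ) (h3 : 3 ≤ i) (u v : Fin i) :
    cdd s (cphi s i u) (cphi s i v) = ((SimpleGraph.cycleGraph i).dist u v : ℤ) := by
  rw [dist_cyc h3]
  have hu := u.isLt
  have hv := v.isLt
  have hd : i / s * s + i % s = i := by
    rw [mul_comm]
    exact Nat.div_add_mod i s
  unfold cphi cdd
  by_cases h1 : 2 * u.val ≤ i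
  · by_cases h2 : 2 * v.val ≤ i
    · rw [if_pos h1, if_pos h2]
      simp only [if_true]
      unfold cyc
      rcases abs_cases ((u.val : ℤ) - v.val) with ⟨c, _⟩ | ⟨c, _⟩ <;> rw [c] <;> omega
    · rw [if_pos h1, if_neg h2]
      simp only [Bool.true_eq_false, if_false, if_true]
      rw [hd]
      have e : i - (i - v.val) = v.val := by omega
      rw [e]
  · by_cases h2 : 2 * v.val ≤ i
    · rw [if_neg h1, if_pos h2]
      simp only [Bool.false_eq_true, if_false]
      rw [hd]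
      have e : i - (i - u.val) = u.val := by omega
      rw [e]
    · rw [if_neg h1, if_neg h2]
      simp only [if_true]
      unfold cyc
      have e1 : ((i - u.val : ℕ) : ℤ) = i - u.val := by omega
      have e2 : ((i - v.val : ℕ) : ℤ) = i - v.val := by omega
      rw [e1, e2]
      rcases abs_cases ((i : ℤ) - u.val - (i - v.val)) with ⟨c, _⟩ | ⟨c, _⟩ <;> rw [c] <;> omega

theorem chain_num (i : ℕ) (h3 : 3 ≤ i) (u w : Fin i) : ∃ m : ℤ,
    |cnum i u - cnum i w - m * i| = ((SimpleGraph.cycleGraph i).dist u w : ℤ) := by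
  rw [dist_cyc h3]
  have hu := u.isLt
  have hw := w.isLt
  have key : ∃ m : ℤ, |(u.val : ℤ) - w.val - m * i| = (cyc i u.val w.val : ℤ) := by
    unfold cyc
    by_cases h : u.val ≤ w.val
    · by_cases h' : 2 * (w.val - u.val) ≤ i
      · refine ⟨0, ?_⟩
        rw [zero_mul, sub_zero, abs_of_nonpos (by omega)]
        omega
      · refine ⟨-1, ?_⟩
        have e : (u.val : ℤ) - w.val - -1 * i = u.val - w.val + i := by ring
        rw [e, abs_of_nonneg (by omega)]
        omega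
    · by_cases h' : 2 * (u.val - w.val) ≤ i
      · refine ⟨0, ?_⟩
        rw [zero_mul, sub_zero, abs_of_nonneg (by omega)]
        omega
      · refine ⟨1, ?_⟩
        rw [one_mul, abs_of_nonpos (by omega)]
        omega
  obtain ⟨m, hm⟩ := key
  unfold cnum
  by_cases h1 : 2 * u.val ≤ i
  · by_cases h2 : 2 * w.val ≤ i
    · rw [if_pos h1, if_pos h2]
      exact ⟨m, hm⟩
    · rw [if_pos h1, if_neg h2]
      refine ⟨m + 1, ?_⟩
      rw [← hm]
      congr 1
      ring
  · by_cases h2 : 2 * w.val ≤ i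
    · rw [if_neg h1, if_pos h2]
      refine ⟨m - 1, ?_⟩
      rw [← hm]
      congr 1
      ring
    · rw [if_neg h1, if_neg h2]
      refine ⟨m, ?_⟩
      rw [← hm]
      congr 1
      ring

theorem chain_place (s i : ℕ) (u : Fin i) : ∃ a ∈ cpl (cphi s i u), |cnum i u - a| ≤ ((0 : ℕ) : ℤ) := by
  have hu := u.isLt
  unfold cpl cphi cnum
  by_cases h1 : 2 * u.val ≤ i
  · rw [if_pos h1, if_pos h1]
    refine ⟨(u.val : ℤ), ?_, ?_⟩
    · simp
    · simp
  · rw [if_neg h1, if_neg h1]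
    refine ⟨(u.val : ℤ) - i, ?_, ?_⟩
    · simp only [Bool.false_eq_true, if_false, Finset.mem_singleton]
      omega
    · simp

theorem chain_bound (n i : ℕ) (hi : i ≤ n) (u : Fin i) : |cnum i u| ≤ ((1 : ℕ) : ℤ) * n := by
  have hu := u.isLt
  unfold cnum
  by_cases h1 : 2 * u.val ≤ i
  · rw [if_pos h1, abs_le]
    constructor <;> push_cast <;> omega
  · rw [if_neg h1, abs_le]
    constructor <;> push_cast <;> omega

theorem chain_count (n : ℕ) : (LU n (cphi (Nat.sqrt n + 1))).ncard ≤ (n + 2) * (Nat.sqrt n + 1) := by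
  set s := Nat.sqrt n + 1 with hs
  have hsub : LU n (cphi s) ⊆ (((Finset.univ : Finset Bool) ×ˢ
      (Finset.range (n / 2 + 1) ×ˢ Finset.range s) : Finset (Bool × ℕ × ℕ)) : Set (Bool × ℕ × ℕ)) := by
    rintro _ ⟨i, h3, hi, u, rfl⟩
    have hu := u.isLt
    rw [Finset.mem_coe, Finset.mem_product, Finset.mem_product]
    refine ⟨Finset.mem_univ _, ?_, ?_⟩
    · rw [Finset.mem_range]
      unfold cphi
      split_ifs with h1
      · simp only
        omega
      · simp only
        omega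
    · rw [Finset.mem_range]
      unfold cphi
      split_ifs with h1
      · exact Nat.mod_lt _ (by omega)
      · simp only
        rw [Nat.div_lt_iff_lt_mul (by omega)]
        exact lt_of_le_of_lt hi (Nat.lt_succ_sqrt n)
  calc (LU n (cphi s)).ncard ≤ _ := Set.ncard_le_ncard hsub (Finset.finite_toSet _)
    _ = ((Finset.univ : Finset Bool) ×ˢ (Finset.range (n / 2 + 1) ×ˢ Finset.range s)).card :=
      Set.ncard_coe_finset _
    _ = 2 * ((n / 2 + 1) * s) := by
      rw [Finset.card_product, Finset.card_product, Finset.card_univ, Fintype.card_bool,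
        Finset.card_range, Finset.card_range]
    _ = (2 * (n / 2 + 1)) * s := by ring
    _ ≤ (n + 2) * s := Nat.mul_le_mul_right _ (by omega)

end Pool.Agent.Hhelper71.PosP
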